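import Mathlib
import Pool.Agent.Helper26.OB.Defs

/-!
# OB, block T4: embeddings such that the residues of transcendental numbers have degree divisible by `l`
-/

set_option autoImplicit false

namespace Pool.Agent.Helper70.OB

open Pool.Agent.Helper87.FK Pool.Agent.Helper26.OB Polynomial

noncomputable section

variable {p : ℕ} [hp : Fact p.Prime]

/-- The numbers with integral image. -/
def AA (τ : ℂ →+* PadicAlgCl p) : Subring ℂ := (Oc p).toSubring.comap τ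

lemma mem_AA (τ : ℂ →+* PadicAlgCl p) (z : ℂ) : z ∈ AA τ ↔ ‖τ z‖ ≤ 1 := mem_Oc

/-- The residue map. -/
def rho (τ : ℂ →+* PadicAlgCl p) : AA τ →+* kk p :=
  (Ideal.Quotient.mk (mm p)).comp
    ({ toFun := fun z => ⟨τ z.1, z.2⟩
       map_one' := Subtype.ext (map_one τ)
       map_mul' := fun _ _ => Subtype.ext (map_mul τ _ _)
       map_zero' := Subtype.ext (map_zero τ)
       map_add' := fun _ _ => Subtype.ext (map_add τ _ _) } : AA τ →+* Oc p)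

lemma rho_eq_iff (τ : ℂ →+* PadicAlgCl p) (x y : AA τ) : rho τ x = rho τ y ↔ ‖τ x - τ y‖ < 1 := by
  unfold rho
  rw [RingHom.comp_apply, RingHom.comp_apply, Ideal.Quotient.eq, mem_mm]
  exact Iff.rfl

/-- The number of digits. -/
lemma digits_inj {r : ℕ} (B : ℕ) (μ ν : Fin r →₀ ℕ) (hμ : ∀ j, μ j < B) (hν : ∀ j, ν j < B)
    (h : ∑ j, μ j * B ^ (j : ℕ) = ∑ j, ν j * B ^ (j : ℕ)) : μ = ν := by
  have h1 : finFunctionFinEquiv (fun j => (⟨μ j, hμ j⟩ : Fin B)) = finFunctionFinEquiv (fun j => (⟨ν j, hν j⟩ : Fin B)) := by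
    apply Fin.ext
    rw [finFunctionFinEquiv_apply, finFunctionFinEquiv_apply]
    exact h
  have h2 := finFunctionFinEquiv.injective h1
  ext j
  exact congrArg Fin.val (congrFun h2 j)

lemma digits_lt {r : ℕ} (B : ℕ) (μ : Fin r →₀ ℕ) (hμ : ∀ j, μ j < B) : ∑ j, μ j * B ^ (j : ℕ) < B ^ r := by
  have h1 := (finFunctionFinEquiv (fun j => (⟨μ j, hμ j⟩ : Fin B))).2
  rw [finFunctionFinEquiv_apply] at h1
  exact h1

/-- A root of a polynomial of small degree over a finite field: the orbit under the Frobenius is short. -/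
lemma short_orbit {κ : Type*} [Field κ] (φ : κ →+* κ) (P : κ[X]) (hP : P ≠ 0) (hφ : P.map φ = P) (z : κ)
    (hz : P.eval z = 0) {B : ℕ} (hB : P.natDegree < B) : ∃ d, 1 ≤ d ∧ d < B ∧ φ^[d] z = z := by
  classical
  have h1 : ∀ j, P.eval (φ^[j] z) = 0 := by
    intro j
    induction j with
    | zero => exact hz
    | succ j ih =>
      rw [Function.iterate_succ_apply']
      have h2 := Polynomial.eval_map_apply φ (φ^[j] z) (p := P)
      rw [hφ, ih, map_zero] at h2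
      exact h2
  obtain ⟨i, hi, j, hj, hij, h2⟩ := Finset.exists_ne_map_eq_of_card_lt_of_maps_to
    (s := Finset.range B) (t := P.roots.toFinset) (f := fun j => φ^[j] z)
    (by
      rw [Finset.card_range]
      exact lt_of_le_of_lt ((Multiset.toFinset_card_le _).trans (Polynomial.card_roots' P)) hB)
    (fun j _ => by
      rw [Finset.mem_coe, Multiset.mem_toFinset, Polynomial.mem_roots hP]
      exact h1 j)
  wlog hlt : i < j generalizing i j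
  · exact this j hj i hi (Ne.symm hij) h2.symm (lt_of_le_of_ne (not_lt.mp hlt) (Ne.symm hij))
  rw [Finset.mem_range] at hj
  refine ⟨j - i, by omega, by omega, ?_⟩
  have h3 : Function.Injective (φ^[i]) := Function.Injective.iterate φ.injective i
  apply h3
  rw [← Function.iterate_add_apply, Nat.add_sub_cancel' hlt.le]
  exact h2.symm

lemma iter_frob {κ : Type*} [Field κ] [CharP κ p] (a d : ℕ) (x : κ) :
    (iterateFrobenius κ p a)^[d] x = x ^ p ^ (a * d) := by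
  rw [coe_iterateFrobenius, ← Function.iterate_mul, iterate_frobenius]

/-- An element which is fixed by a power of the Frobenius. -/
lemma fixed_mul {κ : Type*} [Field κ] [CharP κ p] (a b : ℕ) (x : κ) (h : x ^ p ^ a = x) : x ^ p ^ (a * b) = x := by
  rw [← iter_frob a b x]
  have h1 : iterateFrobenius κ p a x = x := by rw [iterateFrobenius_def]; exact h
  exact Function.iterate_fixed h1 b

theorem core (τ : ℂ →+* PadicAlgCl p) (n m : ℕ) {r : ℕ} (t : Fin r → ℂ) (S : Finset (Fin r →₀ ℕ))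
    (h u : (Fin r →₀ ℕ) → ℂ[X])
    (hh : ∀ μ i, ‖τ ((h μ).coeff i)‖ ≤ 1 ∧ ‖τ ((h μ).coeff i) ^ p ^ n - τ ((h μ).coeff i)‖ < 1)
    (hu : ∀ μ i, ‖τ ((u μ).coeff i)‖ ≤ 1) (hb : ∑ μ ∈ S, u μ * h μ = 1) (y : ℂ) (hy : ‖τ y‖ ≤ 1)
    (hm : ‖(τ y) ^ p ^ m - τ y‖ < 1) (he : ∑ μ ∈ S, (h μ).eval y * ∏ j, t j ^ μ j = 0)
    (B : ℕ) (hB : ∀ μ ∈ S, ∀ j, μ j < B) (ζ : PadicAlgCl p) (hζ : ‖ζ‖ ≤ 1)
    (ht : ∀ j, ‖τ (t j) - ζ ^ B ^ (j : ℕ)‖ < 1) :
    ∃ d, 1 ≤ d ∧ d < B ^ r ∧ ‖ζ ^ p ^ (n * m * d) - ζ‖ < 1 := by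
  classical
  have := charP_kk p
  let φ : kk p →+* kk p := iterateFrobenius (kk p) p (n * m)
  have hφ : ∀ x, φ x = x ^ p ^ (n * m) := fun x => iterateFrobenius_def p (n * m) x
  have hhm : ∀ μ, (↑(h μ).coeffs : Set ℂ) ⊆ AA τ := by
    intro μ z hz
    obtain ⟨i, -, rfl⟩ := Polynomial.mem_coeffs_iff.mp hz
    exact (mem_AA τ _).mpr (hh μ i).1
  have hum : ∀ μ, (↑(u μ).coeffs : Set ℂ) ⊆ AA τ := by
    intro μ z hz
    obtain ⟨i, -, rfl⟩ := Polynomial.mem_coeffs_iff.mp hz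
    exact (mem_AA τ _).mpr (hu μ i)
  let hA : (Fin r →₀ ℕ) → (AA τ)[X] := fun μ => (h μ).toSubring (AA τ) (hhm μ)
  let uA : (Fin r →₀ ℕ) → (AA τ)[X] := fun μ => (u μ).toSubring (AA τ) (hum μ)
  have hAm : ∀ μ, (hA μ).map (AA τ).subtype = h μ := fun μ => Polynomial.map_toSubring (h μ) (AA τ) (hhm μ)
  have uAm : ∀ μ, (uA μ).map (AA τ).subtype = u μ := fun μ => Polynomial.map_toSubring (u μ) (AA τ) (hum μ)
  have htn : ∀ j, ‖τ (t j)‖ ≤ 1 := by
    intro j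
    have h1 : ‖ζ ^ B ^ (j : ℕ)‖ ≤ 1 := by
      rw [norm_pow]
      exact pow_le_one₀ (norm_nonneg _) hζ
    have h2 := PadicAlgCl.isNonarchimedean p (τ (t j) - ζ ^ B ^ (j : ℕ)) (ζ ^ B ^ (j : ℕ))
    rw [sub_add_cancel] at h2
    exact h2.trans (max_le (ht j).le h1)
  let yA : AA τ := ⟨y, (mem_AA τ y).mpr hy⟩
  let tA : Fin r → AA τ := fun j => ⟨t j, (mem_AA τ _).mpr (htn j)⟩
  let ζO : Oc p := ⟨ζ, mem_Oc.mpr hζ⟩
  let zb : kk p := Ideal.Quotient.mk (mm p) ζO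
  have htb : ∀ j, rho τ (tA j) = zb ^ B ^ (j : ℕ) := by
    intro j
    have h1 : rho τ (tA j) = Ideal.Quotient.mk (mm p) (ζO ^ B ^ (j : ℕ)) := by
      unfold rho
      rw [RingHom.comp_apply, Ideal.Quotient.eq, mem_mm]
      exact ht j
    rw [h1, map_pow]
  set yb : kk p := rho τ yA with hyb
  -- the coefficients
  let c : (Fin r →₀ ℕ) → kk p := fun μ => ((hA μ).map (rho τ)).eval yb
  have hc : ∀ μ, c μ = rho τ ((hA μ).eval yA) := by
    intro μ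
    exact Polynomial.eval_map_apply (rho τ) yA
  have hyfix : φ yb = yb := by
    rw [hφ, mul_comm]
    apply fixed_mul
    rw [hyb, ← map_pow, rho_eq_iff]
    change ‖τ ((yA : ℂ) ^ p ^ m) - τ yA‖ < 1
    rw [map_pow]
    exact hm
  have hcfix : ∀ μ, φ (c μ) = c μ := by
    intro μ
    have h1 : ((hA μ).map (rho τ)).map φ = (hA μ).map (rho τ) := by
      ext i
      rw [coeff_map, coeff_map, hφ]
      apply fixed_mul
      rw [← map_pow, rho_eq_iff]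
      have h2 : (((hA μ).coeff i : AA τ) : ℂ) = (h μ).coeff i := Polynomial.coeff_toSubring _ _ _
      change ‖τ ((((hA μ).coeff i : AA τ) : ℂ) ^ p ^ n) - τ ((hA μ).coeff i : AA τ)‖ < 1
      rw [h2, map_pow]
      exact (hh μ i).2
    have h2 := Polynomial.eval_map_apply φ yb (p := (hA μ).map (rho τ))
    rw [h1, hyfix] at h2
    exact h2.symm
  let e : (Fin r →₀ ℕ) → ℕ := fun μ => ∑ j, μ j * B ^ (j : ℕ)
  let P : (kk p)[X] := ∑ μ ∈ S, C (c μ) * X ^ e μ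
  have hPz : P.eval zb = 0 := by
    have h1 : ∑ μ ∈ S, (hA μ).eval yA * ∏ j, tA j ^ μ j = 0 := by
      apply Subtype.ext
      rw [AddSubmonoidClass.coe_finsetSum]
      change ∑ μ ∈ S, ((AA τ).subtype ((hA μ).eval yA * ∏ j, tA j ^ μ j)) = 0
      rw [← he]
      refine Finset.sum_congr rfl fun μ _ => ?_
      rw [map_mul, map_prod]
      congr 1
      · have h2 := Polynomial.eval_map_apply (AA τ).subtype yA (p := hA μ)
        rw [hAm] at h2
        exact h2.symm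
    have h2 := congrArg (rho τ) h1
    rw [map_sum, map_zero] at h2
    rw [← h2, Polynomial.eval_finsetSum]
    refine Finset.sum_congr rfl fun μ _ => ?_
    rw [eval_mul, eval_C, eval_pow, eval_X, map_mul, ← hc, map_prod]
    congr 1
    change zb ^ (∑ j, μ j * B ^ (j : ℕ)) = _
    rw [← Finset.prod_pow_eq_pow_sum]
    refine Finset.prod_congr rfl fun j _ => ?_
    rw [map_pow, htb, ← pow_mul, mul_comm]
  have hPφ : P.map φ = P := by
    change (∑ μ ∈ S, C (c μ) * X ^ e μ).map φ = ∑ μ ∈ S, C (c μ) * X ^ e μ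
    rw [Polynomial.map_sum]
    refine Finset.sum_congr rfl fun μ _ => ?_
    rw [Polynomial.map_mul, map_C, Polynomial.map_pow, map_X, hcfix]
  obtain ⟨μ₀, hμ₀, hc₀⟩ : ∃ μ ∈ S, c μ ≠ 0 := by
    by_contra hcon
    push Not at hcon
    have h1 : ∑ μ ∈ S, uA μ * hA μ = 1 := by
      apply Polynomial.map_injective (AA τ).subtype Subtype.val_injective
      rw [Polynomial.map_sum, Polynomial.map_one, ← hb]
      refine Finset.sum_congr rfl fun μ _ => ?_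
      rw [Polynomial.map_mul, hAm, uAm]
    have h2 := congrArg (fun q : (AA τ)[X] => rho τ (q.eval yA)) h1
    simp only [Polynomial.eval_finsetSum, map_sum, eval_mul, map_mul, eval_one, map_one] at h2
    rw [Finset.sum_eq_zero] at h2
    · exact zero_ne_one h2
    · intro μ hμ
      rw [← hc, hcon μ hμ, mul_zero]
  have hP0 : P ≠ 0 := by
    intro h0
    apply hc₀
    have h1 : P.coeff (e μ₀) = c μ₀ := by
      change (∑ μ ∈ S, C (c μ) * X ^ e μ).coeff (e μ₀) = c μ₀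
      rw [Polynomial.finsetSum_coeff, Finset.sum_eq_single μ₀]
      · rw [coeff_C_mul, coeff_X_pow, if_pos rfl, mul_one]
      · intro μ hμ hne
        rw [coeff_C_mul, coeff_X_pow, if_neg, mul_zero]
        intro h2
        exact hne (digits_inj B μ₀ μ (hB μ₀ hμ₀) (hB μ hμ) h2).symm
      · intro h2
        exact absurd hμ₀ h2
    rw [← h1, h0, coeff_zero]
  have hdeg : P.natDegree < B ^ r := by
    have h1 : P.natDegree ≤ B ^ r - 1 := by
      apply Polynomial.natDegree_sum_le_of_forall_le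
      intro μ hμ
      refine (Polynomial.natDegree_C_mul_X_pow_le _ _).trans ?_
      exact Nat.le_sub_one_of_lt (digits_lt B μ (hB μ hμ))
    have h2 := digits_lt B μ₀ (hB μ₀ hμ₀)
    omega
  obtain ⟨d, hd1, hd2, hd3⟩ := short_orbit φ P hP0 hPφ zb hPz hdeg
  refine ⟨d, hd1, hd2, ?_⟩
  have h1 : zb ^ p ^ (n * m * d) = zb := by
    rw [← iter_frob (n * m) d zb]
    exact hd3
  have h2 : Ideal.Quotient.mk (mm p) (ζO ^ p ^ (n * m * d)) = Ideal.Quotient.mk (mm p) ζO := by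
    rw [map_pow]
    exact h1
  rw [Ideal.Quotient.eq, mem_mm] at h2
  exact h2

/-- **T4**: from T1, T2, T3. -/
theorem trans
    (teq_of : ∀ (Y : Finset ℂ) (_ : ∀ y ∈ Y, Transcendental ℚ y),
      ∃ (r : ℕ) (t : Fin r → ℂ), AlgebraicIndependent (algebraicClosure ℚ ℂ).toSubfield t ∧
        ∀ y ∈ Y, ∃ (S : Finset (Fin r →₀ ℕ)) (h u : (Fin r →₀ ℕ) → Polynomial ℂ),
          (∀ μ i, IsAlgebraic ℚ ((h μ).coeff i)) ∧ (∀ μ i, IsAlgebraic ℚ ((u μ).coeff i)) ∧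
          ∑ μ ∈ S, u μ * h μ = 1 ∧ ∑ μ ∈ S, (h μ).eval y * ∏ j, t j ^ μ j = 0)
    (unity_of : ∀ (p : ℕ) [Fact p.Prime] (N : ℕ) (_ : 1 ≤ N), ∃ ζ : PadicAlgCl p, ‖ζ‖ ≤ 1 ∧
      ‖ζ ^ p ^ N - ζ‖ < 1 ∧ ∀ m : ℕ, 1 ≤ m → ‖ζ ^ p ^ m - ζ‖ < 1 → N ∣ m)
    (emb_of : ∀ (p : ℕ) [Fact p.Prime] (L₀ : Subfield ℂ) (_ : (L₀ : Set ℂ).Countable) (τ₀ : ℂ →+* PadicAlgCl p)
      {r : ℕ} (t : Fin r → ℂ) (_ : AlgebraicIndependent L₀ t) (θ : Fin r → PadicAlgCl p),
      ∃ τ : ℂ →+* PadicAlgCl p, (∀ z ∈ L₀, τ z = τ₀ z) ∧ ∀ j, ‖τ (t j) - θ j‖ < 1)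
    (Y : Finset ℂ) (hY : ∀ y ∈ Y, Transcendental ℚ y) : ∃ Z : Finset ℂ, (∀ z ∈ Z, IsAlgebraic ℚ z) ∧
    ∀ (p : ℕ) [Fact p.Prime] (τ₀ : ℂ →+* PadicAlgCl p) (n : ℕ), 1 ≤ n →
      (∀ z ∈ Z, ‖τ₀ z‖ ≤ 1 ∧ ‖(τ₀ z) ^ p ^ n - τ₀ z‖ < 1) → ∀ l : ℕ, l.Prime →
      ∃ τ : ℂ →+* PadicAlgCl p, (∀ z, IsAlgebraic ℚ z → τ z = τ₀ z) ∧
        ∀ y ∈ Y, ‖τ y‖ ≤ 1 → ∀ m : ℕ, 1 ≤ m → ‖(τ y) ^ p ^ m - τ y‖ < 1 → l ∣ m := by
  classical
  obtain ⟨r, t, ht, hyt⟩ := teq_of Y hY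
  choose S h u hh hu hb he using fun y : Y => hyt y.1 y.2
  -- zero outside of `S`
  let h' : (y : Y) → (Fin r →₀ ℕ) → ℂ[X] := fun y μ => if μ ∈ S y then h y μ else 0
  let u' : (y : Y) → (Fin r →₀ ℕ) → ℂ[X] := fun y μ => if μ ∈ S y then u y μ else 0
  let Z : Finset ℂ := Finset.univ.biUnion fun y : Y => (S y).biUnion fun μ => (h y μ).coeffs ∪ (u y μ).coeffs
  refine ⟨Z, ?_, ?_⟩
  · intro z hz
    obtain ⟨y, -, hz⟩ := Finset.mem_biUnion.mp hz
    obtain ⟨μ, -, hz⟩ := Finset.mem_biUnion.mp hz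
    rcases Finset.mem_union.mp hz with hz | hz
    · obtain ⟨i, -, rfl⟩ := Polynomial.mem_coeffs_iff.mp hz
      exact hh y μ i
    · obtain ⟨i, -, rfl⟩ := Polynomial.mem_coeffs_iff.mp hz
      exact hu y μ i
  intro p hp τ₀ n hn hZ l hl
  let B : ℕ := (Finset.univ.biUnion fun y : Y => (S y).biUnion fun μ => Finset.univ.image fun j => μ j).sup id + 1
  have hB : ∀ y : Y, ∀ μ ∈ S y, ∀ j, μ j < B := by
    intro y μ hμ j
    refine Nat.lt_succ_of_le (Finset.le_sup (f := id) ?_)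
    exact Finset.mem_biUnion.mpr ⟨y, Finset.mem_univ _, Finset.mem_biUnion.mpr ⟨μ, hμ,
      Finset.mem_image.mpr ⟨j, Finset.mem_univ _, rfl⟩⟩⟩
  set s := n * B ^ r with hs
  obtain ⟨ζ, hζ1, -, hζ3⟩ := unity_of p (l ^ s) (Nat.one_le_pow _ _ hl.pos)
  obtain ⟨τ, hτ1, hτ2⟩ := emb_of p (algebraicClosure ℚ ℂ).toSubfield (by
    have h1 : (((algebraicClosure ℚ ℂ).toSubfield : Subfield ℂ) : Set ℂ) = {x : ℂ | IsAlgebraic ℚ x} := by
      ext x
      exact mem_algebraicClosure_iff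
    rw [h1]
    exact Algebraic.countable ℚ ℂ) τ₀ t ht (fun j => ζ ^ B ^ (j : ℕ))
  have hτa : ∀ z, IsAlgebraic ℚ z → τ z = τ₀ z := fun z hz => hτ1 z (mem_algebraicClosure_iff.mpr hz)
  refine ⟨τ, hτa, ?_⟩
  intro y hy hyn m hm hym
  by_contra hlm
  let y' : Y := ⟨y, hy⟩
  have hcoef : ∀ z ∈ Z, ‖τ z‖ ≤ 1 ∧ ‖(τ z) ^ p ^ n - τ z‖ < 1 := by
    intro z hz
    have hza : IsAlgebraic ℚ z := by
      obtain ⟨y, -, hz⟩ := Finset.mem_biUnion.mp hz
      obtain ⟨μ, -, hz⟩ := Finset.mem_biUnion.mp hz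
      rcases Finset.mem_union.mp hz with hz | hz
      · obtain ⟨i, -, rfl⟩ := Polynomial.mem_coeffs_iff.mp hz
        exact hh y μ i
      · obtain ⟨i, -, rfl⟩ := Polynomial.mem_coeffs_iff.mp hz
        exact hu y μ i
    rw [hτa z hza]
    exact hZ z hz
  have hzero : ‖τ (0 : ℂ)‖ ≤ 1 ∧ ‖(τ (0 : ℂ)) ^ p ^ n - τ (0 : ℂ)‖ < 1 := by
    rw [map_zero, norm_zero, sub_zero, norm_pow, norm_zero]
    refine ⟨zero_le_one, ?_⟩
    rw [zero_pow (pow_ne_zero _ hp.out.ne_zero)]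
    exact one_pos
  have h1 : ∀ μ i, ‖τ ((h' y' μ).coeff i)‖ ≤ 1 ∧ ‖τ ((h' y' μ).coeff i) ^ p ^ n - τ ((h' y' μ).coeff i)‖ < 1 := by
    intro μ i
    by_cases hμ : μ ∈ S y'
    · have e1 : h' y' μ = h y' μ := if_pos hμ
      rw [e1]
      by_cases h0 : (h y' μ).coeff i = 0
      · rw [h0]
        exact hzero
      · exact hcoef _ (Finset.mem_biUnion.mpr ⟨y', Finset.mem_univ _, Finset.mem_biUnion.mpr ⟨μ, hμ,
          Finset.mem_union_left _ (Polynomial.coeff_mem_coeffs h0)⟩⟩)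
    · have e1 : h' y' μ = 0 := if_neg hμ
      rw [e1, coeff_zero]
      exact hzero
  have h2 : ∀ μ i, ‖τ ((u' y' μ).coeff i)‖ ≤ 1 := by
    intro μ i
    by_cases hμ : μ ∈ S y'
    · have e1 : u' y' μ = u y' μ := if_pos hμ
      rw [e1]
      by_cases h0 : (u y' μ).coeff i = 0
      · rw [h0]
        exact hzero.1
      · exact (hcoef _ (Finset.mem_biUnion.mpr ⟨y', Finset.mem_univ _, Finset.mem_biUnion.mpr ⟨μ, hμ,
          Finset.mem_union_right _ (Polynomial.coeff_mem_coeffs h0)⟩⟩)).1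
    · have e1 : u' y' μ = 0 := if_neg hμ
      rw [e1, coeff_zero]
      exact hzero.1
  have h3 : ∑ μ ∈ S y', u' y' μ * h' y' μ = 1 := by
    rw [← hb y']
    refine Finset.sum_congr rfl fun μ hμ => ?_
    change (if μ ∈ S y' then u y' μ else 0) * (if μ ∈ S y' then h y' μ else 0) = _
    rw [if_pos hμ, if_pos hμ]
  have h4 : ∑ μ ∈ S y', (h' y' μ).eval y * ∏ j, t j ^ μ j = 0 := by
    rw [← he y']
    refine Finset.sum_congr rfl fun μ hμ => ?_
    change (if μ ∈ S y' then h y' μ else 0).eval y * _ = _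
    rw [if_pos hμ]
  obtain ⟨d, hd1, hd2, hd3⟩ := core τ n m t (S y') (h' y') (u' y') h1 h2 h3 y hyn hym h4 B (hB y') ζ hζ1 hτ2
  have h5 := hζ3 (n * m * d) (Nat.mul_pos (Nat.mul_pos hn hm) hd1) hd3
  have h6 : l ^ s ∣ n * d := by
    have h7 : Nat.Coprime (l ^ s) m := (Nat.Coprime.pow_left s ((Nat.Prime.coprime_iff_not_dvd hl).mpr hlm))
    refine h7.dvd_of_dvd_mul_right ?_
    have h8 : n * m * d = n * d * m := by ring
    rwa [h8] at h5
  have h7 : l ^ s ≤ n * d := Nat.le_of_dvd (Nat.mul_pos hn hd1) h6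
  have h8 : n * d ≤ s := Nat.mul_le_mul_left n hd2.le
  have h9 : s < l ^ s := Nat.lt_pow_self hl.one_lt
  omega

end

end Pool.Agent.Helper70.OB
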